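import Pool.Agent.Helper69.MF.StB

/-!
# Project MF, module G3: limits of normal points are not on the circles
-/

set_option autoImplicit false

open Set Topology Filter MeasureTheory
open Pool.Agent.Helper31.CY Pool.Agent.Helper69.MF

namespace Pool.Agent.Helper78.MF

lemma exists_equiv (B : E3 →L[ℝ] E3) (hB : ∀ v, v ≠ 0 → B v ≠ 0) :
    ∃ e : E3 ≃L[ℝ] E3, (e : E3 →L[ℝ] E3) = B := by
  have hinj : Function.Injective (B : E3 →ₗ[ℝ] E3) := by
    rw [injective_iff_map_eq_zero]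
    intro a ha
    by_contra hne
    exact hB a hne ha
  refine ⟨(LinearEquiv.ofInjectiveEndo (B : E3 →ₗ[ℝ] E3) hinj).toContinuousLinearEquiv, ?_⟩
  ext v : 1
  simp

lemma deriv_coord (f : ℝ → E3) (f' : E3) (x : ℝ) :
    HasDerivAt f f' x ↔ ∀ i, HasDerivAt (fun t => f t i) (f' i) x := by
  constructor
  · intro h i
    have hL : HasFDerivAt (fun w : E3 => w i) (EuclideanSpace.proj i : E3 →L[ℝ] ℝ) (f x) :=
      (EuclideanSpace.proj i : E3 →L[ℝ] ℝ).hasFDerivAt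
    exact hL.comp_hasDerivAt x h
  · intro h
    have h1 : HasDerivAt (fun t => (WithLp.ofLp (f t) : Fin 3 → ℝ)) (WithLp.ofLp f') x :=
      hasDerivAt_pi.2 h
    have hL : HasFDerivAt (fun w : Fin 3 → ℝ => (WithLp.toLp 2 w : E3))
        ((PiLp.continuousLinearEquiv 2 ℝ (fun _ : Fin 3 => ℝ)).symm :
          (Fin 3 → ℝ) →L[ℝ] E3) (WithLp.ofLp (f x)) :=
      ((PiLp.continuousLinearEquiv 2 ℝ (fun _ : Fin 3 => ℝ)).symm :
          (Fin 3 → ℝ) →L[ℝ] E3).hasFDerivAt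
    exact hL.comp_hasDerivAt x h1

lemma cone_aux (Φ : E3 → E3) (U : Set E3) (hU : IsOpen U)
    (x : E3) (hxU : x ∈ U) (hΦ : ContDiffOn ℝ 1 Φ U) (e : E3 ≃L[ℝ] E3)
    (he : (e : E3 →L[ℝ] E3) = fderiv ℝ Φ x) :
    HasStrictFDerivAt (fun z => Φ z - Φ x) (e : E3 →L[ℝ] E3) x := by
  have hc : ContDiffAt ℝ 1 Φ x := hΦ.contDiffAt (hU.mem_nhds hxU)
  have hs : HasStrictFDerivAt Φ (fderiv ℝ Φ x) x := hc.hasStrictFDerivAt (by norm_num)
  rw [← he] at hs
  exact hs.sub_const _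

lemma cone1 (h1 : StTC1) (S : Set E3) (Φ : E3 → E3) (U : Set E3) (hU : IsOpen U)
    (x : E3) (hxU : x ∈ U) (hΦ : ContDiffOn ℝ 1 Φ U) (e : E3 ≃L[ℝ] E3)
    (he : (e : E3 →L[ℝ] E3) = fderiv ℝ Φ x) (hS : ∀ z ∈ U, z ∈ S ↔ 0 ≤ Φ z 0 ∧ Φ z 1 = 0)
    (h0 : 0 < Φ x 0) (hx1 : Φ x 1 = 0) (v : E3) : v ∈ TCn S x ↔ (fderiv ℝ Φ x v) 1 = 0 := by
  have hs := cone_aux Φ U hU x hxU hΦ e he
  have hc : ContinuousAt Φ x := (hΦ.contDiffAt (hU.mem_nhds hxU)).continuousAt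
  have hc0 : ContinuousAt (fun z => Φ z 0) x := by
    have : Continuous (fun w : E3 => w 0) := by fun_prop
    exact this.continuousAt.comp hc
  have hU' : U ∩ {z | 0 < Φ z 0} ∈ 𝓝 x :=
    inter_mem (hU.mem_nhds hxU) (hc0.eventually (lt_mem_nhds h0))
  have hM : IsClosed {y : E3 | y 1 = 0} := by
    have : Continuous (fun w : E3 => w 1) := by fun_prop
    exact isClosed_eq this continuous_const
  have key := h1 E3 E3 S x (fun z => Φ z - Φ x) e {y : E3 | y 1 = 0} (U ∩ {z | 0 < Φ z 0}) hs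
    (by simp) hU' ?_ hM ?_ v
  · rw [key]
    have : (e : E3 → E3) v = fderiv ℝ Φ x v := by rw [← he]; rfl
    simp only [mem_ofPred_eq, this]
  · rintro z ⟨hzU, hz0⟩
    rw [hS z hzU]
    simp only [mem_ofPred_eq, PiLp.sub_apply, hx1, sub_zero]
    simp only [mem_ofPred_eq] at hz0
    exact ⟨fun h => h.2, fun h => ⟨hz0.le, h⟩⟩
  · intro l _ y hy
    simp only [mem_ofPred_eq, PiLp.smul_apply, smul_eq_mul] at hy ⊢
    rw [hy, mul_zero]

lemma cone2 (h1 : StTC1) (S : Set E3) (Φ : E3 → E3) (U : Set E3) (hU : IsOpen U)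
    (x : E3) (hxU : x ∈ U) (hΦ : ContDiffOn ℝ 1 Φ U) (e : E3 ≃L[ℝ] E3)
    (he : (e : E3 →L[ℝ] E3) = fderiv ℝ Φ x) (hS : ∀ z ∈ U, z ∈ S ↔ 0 ≤ Φ z 0 ∧ Φ z 1 = 0)
    (hx0 : Φ x 0 = 0) (hx1 : Φ x 1 = 0) (v : E3) :
    v ∈ TCn S x ↔ 0 ≤ (e v) 0 ∧ (e v) 1 = 0 := by
  have hs := cone_aux Φ U hU x hxU hΦ e he
  have hM : IsClosed {y : E3 | 0 ≤ y 0 ∧ y 1 = 0} := by
    have h0 : Continuous (fun w : E3 => w 0) := by fun_prop
    have h1 : Continuous (fun w : E3 => w 1) := by fun_prop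
    exact (isClosed_le continuous_const h0).inter (isClosed_eq h1 continuous_const)
  have key := h1 E3 E3 S x (fun z => Φ z - Φ x) e {y : E3 | 0 ≤ y 0 ∧ y 1 = 0} U hs
    (by simp) (hU.mem_nhds hxU) ?_ hM ?_ v
  · rw [key]
    rfl
  · intro z hzU
    rw [hS z hzU]
    simp only [mem_ofPred_eq, PiLp.sub_apply, hx0, hx1, sub_zero]
  · intro l hl y hy
    simp only [mem_ofPred_eq, PiLp.smul_apply, smul_eq_mul] at hy ⊢
    rw [hy.2, mul_zero]
    exact ⟨mul_nonneg hl hy.1, rfl⟩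

lemma sym_reg (h2 : StTC2) (S : Set E3) (x : E3) (hxS : x ∈ S) (hx : RegP S x) (v : E3)
    (hv : v ∈ TCn S x) : -v ∈ TCn S x := by
  obtain ⟨f, U, hU, hxU, hf, hf0, hS, -⟩ := hx
  have key := h2 S x f U hU hxU (hf.of_le (by norm_num)) (hf0 x hxU) ((hS x hxU).1 hxS) hS
  rw [key] at hv ⊢
  rw [map_neg, hv, neg_zero]

lemma pos_of_reg (h1 : StTC1) (h2 : StTC2) (S : Set E3) (Φ : E3 → E3) (U : Set E3) (hU : IsOpen U)
    (x : E3) (hxU : x ∈ U) (hΦ : ContDiffOn ℝ 1 Φ U) (e : E3 ≃L[ℝ] E3)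
    (he : (e : E3 →L[ℝ] E3) = fderiv ℝ Φ x) (hS : ∀ z ∈ U, z ∈ S ↔ 0 ≤ Φ z 0 ∧ Φ z 1 = 0)
    (hxS : x ∈ S) (hx : RegP S x) : 0 < Φ x 0 := by
  obtain ⟨h0, hx1⟩ := (hS x hxU).1 hxS
  rcases h0.lt_or_eq with h | h
  · exact h
  · exfalso
    have key := cone2 h1 S Φ U hU x hxU hΦ e he hS h.symm hx1
    have hv : e.symm (pt 1 0 0) ∈ TCn S x := by
      rw [key]
      simp [pt]
    have hv' := sym_reg h2 S x hxS hx _ hv
    rw [key] at hv'
    have := hv'.1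
    rw [map_neg, e.apply_symm_apply] at this
    simp [pt] at this
    linarith

lemma dt_sub_smul (a b : ℝ) (v w u : E3) : dt (a • w - b • v) u = a * dt w u - b * dt v u := by
  simp only [dt, PiLp.sub_apply, PiLp.smul_apply, smul_eq_mul]
  ring

theorem hG3 : StTC1 → StTC2 → StG3 := by
  intro h1 h2 r0 r1 h S y z hr0 hr1 hM hy hz hlim
  obtain ⟨Φ, U, hU, hyU, hΦ, hΦy, hinj, hS⟩ := hM.bdy y hy
  obtain ⟨e0, he0⟩ := exists_equiv (fderiv ℝ Φ y) hinj
  have hcf : ContinuousAt (fderiv ℝ Φ) y :=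
    (hΦ.continuousOn_fderiv_of_isOpen hU (le_refl _)).continuousAt (hU.mem_nhds hyU)
  have hinv : ∀ᶠ x in 𝓝 y, ∃ e : E3 ≃L[ℝ] E3, (e : E3 →L[ℝ] E3) = fderiv ℝ Φ x := by
    have : range ((↑) : (E3 ≃L[ℝ] E3) → (E3 →L[ℝ] E3)) ∈ 𝓝 (fderiv ℝ Φ y) := by
      rw [← he0]
      exact ContinuousLinearEquiv.nhds e0
    exact hcf this
  -- the point off the axis
  have hrad : 0 < y 0 ^ 2 + y 1 ^ 2 := by
    rcases hy with hy | hy
    · rw [hy.1]; positivity
    · rw [hy.1]; positivity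
  -- tangential derivative
  have htan : (fderiv ℝ Φ y (Jv y)) 1 = 0 := by
    have hd : HasDerivAt (fun θ : ℝ => rot θ y) (Jv y) 0 := by
      rw [deriv_coord]
      intro i
      fin_cases i
      · have : HasDerivAt (fun θ : ℝ => Real.cos θ * y 0 - Real.sin θ * y 1)
            (-Real.sin 0 * y 0 - Real.cos 0 * y 1) 0 :=
          ((Real.hasDerivAt_cos 0).mul_const _).sub ((Real.hasDerivAt_sin 0).mul_const _)
        simpa [rot, pt, Jv] using this
      · have : HasDerivAt (fun θ : ℝ => Real.sin θ * y 0 + Real.cos θ * y 1)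
            (Real.cos 0 * y 0 + -Real.sin 0 * y 1) 0 :=
          ((Real.hasDerivAt_sin 0).mul_const _).add ((Real.hasDerivAt_cos 0).mul_const _)
        simpa [rot, pt, Jv] using this
      · have : HasDerivAt (fun _ : ℝ => y 2) 0 0 := hasDerivAt_const _ _
        simpa [rot, pt, Jv] using this
    have hr0' : rot 0 y = y := by
      ext i
      fin_cases i <;> simp [rot, pt]
    have hΦd : HasFDerivAt Φ (fderiv ℝ Φ y) (rot 0 y) := by
      rw [hr0']
      exact ((hΦ.contDiffAt (hU.mem_nhds hyU)).differentiableAt (by norm_num)).hasFDerivAt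
    have hcomp : HasDerivAt (fun θ : ℝ => Φ (rot θ y)) (fderiv ℝ Φ y (Jv y)) 0 :=
      hΦd.comp_hasDerivAt (0 : ℝ) hd
    have hcomp1 : HasDerivAt (fun θ : ℝ => Φ (rot θ y) 1) ((fderiv ℝ Φ y (Jv y)) 1) 0 :=
      (deriv_coord _ _ _).1 hcomp 1
    have hzero : (fun θ : ℝ => Φ (rot θ y) 1) =ᶠ[𝓝 0] fun _ => 0 := by
      have hcont : ContinuousAt (fun θ : ℝ => rot θ y) 0 := hd.continuousAt
      have hmem : ∀ᶠ θ in 𝓝 (0 : ℝ), rot θ y ∈ U := by
        have hmm : U ∈ 𝓝 (rot 0 y) := by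
          rw [hr0']
          exact hU.mem_nhds hyU
        exact hcont hmm
      filter_upwards [hmem] with θ hθ
      have hin : rot θ y ∈ circ r0 0 ∪ circ r1 h := by
        have hsq : ∀ θ : ℝ, (rot θ y) 0 ^ 2 + (rot θ y) 1 ^ 2 = y 0 ^ 2 + y 1 ^ 2 := by
          intro θ
          simp only [rot, pt]
          simp
          nlinarith [Real.sin_sq_add_cos_sq θ]
        have h2' : (rot θ y) 2 = y 2 := by simp [rot, pt]
        rcases hy with hy | hy
        · left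
          exact ⟨by rw [hsq]; exact hy.1, by rw [h2']; exact hy.2⟩
        · right
          exact ⟨by rw [hsq]; exact hy.1, by rw [h2']; exact hy.2⟩
      exact ((hS _ hθ).1 (hM.sub hin)).2
    exact hcomp1.unique ((hasDerivAt_const (0 : ℝ) (0 : ℝ)).congr_of_eventuallyEq hzero)
  -- proportional forms
  have hprop : ∀ v w : E3, ∀ᶠ n in atTop, (fderiv ℝ Φ (z n) v) 1 * dt w (Jv (z n)) =
      (fderiv ℝ Φ (z n) w) 1 * dt v (Jv (z n)) := by
    intro v w
    filter_upwards [hlim hinv, hlim (hU.mem_nhds hyU)] with n hn1 hn2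
    obtain ⟨e, he⟩ := hn1
    obtain ⟨hzS, -, hzR, -, hzN⟩ := hz n
    have hpos := pos_of_reg h1 h2 S Φ U hU (z n) hn2 hΦ e he hS hzS hzR
    have hz1 := ((hS _ hn2).1 hzS).2
    have key := cone1 h1 S Φ U hU (z n) hn2 hΦ e he hS hpos hz1
    have hin : (fderiv ℝ Φ (z n) v) 1 • w - (fderiv ℝ Φ (z n) w) 1 • v ∈ TCn S (z n) := by
      rw [key]
      simp only [map_sub, map_smul, PiLp.sub_apply, PiLp.smul_apply, smul_eq_mul]
      ring
    have := hzN _ hin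
    rw [dt_sub_smul] at this
    linarith
  -- limit
  have hlimit : ∀ v w : E3, (fderiv ℝ Φ y v) 1 * dt w (Jv y) = (fderiv ℝ Φ y w) 1 * dt v (Jv y) := by
    intro v w
    have hA : ∀ v : E3, Tendsto (fun n => (fderiv ℝ Φ (z n) v) 1) atTop
        (𝓝 ((fderiv ℝ Φ y v) 1)) := by
      intro v
      have hc : ContinuousAt (fun x => (fderiv ℝ Φ x v) 1) y := by
        have h3 : Continuous (fun L : E3 →L[ℝ] E3 => (L v) 1) := by fun_prop
        exact h3.continuousAt.comp hcf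
      exact hc.tendsto.comp hlim
    have hJ : ∀ v : E3, Tendsto (fun n => dt v (Jv (z n))) atTop (𝓝 (dt v (Jv y))) := by
      intro v
      have hc : Continuous (fun x : E3 => dt v (Jv x)) := by
        have : (fun x : E3 => dt v (Jv x)) = fun x => -(v 0 * x 1) + v 1 * x 0 := by
          funext x
          simp [dt, Jv, pt]
        rw [this]
        fun_prop
      exact (hc.tendsto y).comp hlim
    have hl := (hA v).mul (hJ w)
    have hr := (hA w).mul (hJ v)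
    exact tendsto_nhds_unique (hl.congr' (hprop v w)) hr
  have hfin := hlimit (e0.symm (pt 0 1 0)) (Jv y)
  rw [htan, zero_mul] at hfin
  have h3 : fderiv ℝ Φ y (e0.symm (pt 0 1 0)) = pt 0 1 0 := by
    rw [← he0]
    exact e0.apply_symm_apply _
  rw [h3] at hfin
  have h4 : dt (Jv y) (Jv y) = y 0 ^ 2 + y 1 ^ 2 := by
    simp [dt, Jv, pt]
    ring
  rw [h4] at hfin
  simp [pt] at hfin
  nlinarith

end Pool.Agent.Helper78.MF
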